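import Pool.Agent.Helper9.UP.StS
import Pool.Agent.Helper18.TR.FS

/-!
# Project UP, module FC: factorization over the ranges, general truncation
-/

set_option autoImplicit false

namespace Pool.Agent.Helper78.UP

open Finset
open Pool.Agent.Helper9.UP
open Pool.Agent.Helper18.TR (idx Qi Yy ee fs_idx fs_gen fs_val)

lemma fc_fact0 (w : ℕ) (β : ℕ → ℕ) (Q : Finset ℕ) (g : ℕ → ℝ) :
    MW (fb0 w β Q) g = ∏ i ∈ range (w + 1), Yy (β i) (Qi w Q i) g := by
  unfold MW fb0
  rw [Finset.sum_filter]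
  have h1 : ∀ T ∈ Q.powerset,
      (if ∀ i ∈ range (w + 1), (Qi w T i).card ≤ β i then
        (-1 : ℝ) ^ T.card * ∏ p ∈ T, g p else 0) =
      ∏ i ∈ range (w + 1), (fun i (T : Finset ℕ) => if T.card ≤ β i then
        (-1 : ℝ) ^ T.card * ∏ p ∈ T, g p else 0) i (Qi w T i) := by
    intro T _
    simp only []
    rw [Finset.prod_ite_zero, fs_val]
  refine (Finset.sum_congr rfl (fun T hT => by convert h1 T hT)).trans ?_
  rw [fs_gen w (w + 1) Q (fun p _ => fs_idx w p)
    (fun i (T : Finset ℕ) => if T.card ≤ β i then (-1 : ℝ) ^ T.card * ∏ p ∈ T, g p else 0)]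
  apply Finset.prod_congr rfl
  intro i _
  unfold Yy
  rw [Finset.sum_filter]

lemma fc_fact1 (w : ℕ) (β : ℕ → ℕ) (Q : Finset ℕ) (g : ℕ → ℝ) (hb : ∀ i, Even (β i)) :
    MW (fb1 w β Q) g = - ∑ i ∈ range (w + 1), ee (β i + 1) (Qi w Q i) g *
      ∏ j ∈ (range (w + 1)).erase i, Yy (β j) (Qi w Q j) g := by
  unfold MW fb1
  rw [Finset.sum_filter]
  set F : ℕ → ℕ → Finset ℕ → ℝ := fun i₀ i T =>
    if (if i = i₀ then T.card = β i + 1 else T.card ≤ β i) then
      (-1 : ℝ) ^ T.card * ∏ p ∈ T, g p else 0 with hF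
  have h1 : ∀ T ∈ Q.powerset,
      (if ∃ i ∈ range (w + 1), (Qi w T i).card = β i + 1 ∧
        ∀ j ∈ range (w + 1), j ≠ i → (Qi w T j).card ≤ β j then
        (-1 : ℝ) ^ T.card * ∏ p ∈ T, g p else 0) =
      ∑ i₀ ∈ range (w + 1), ∏ i ∈ range (w + 1), F i₀ i (Qi w T i) := by
    intro T _
    have h2 : ∀ i₀ ∈ range (w + 1), ∏ i ∈ range (w + 1), F i₀ i (Qi w T i) =
        if ((Qi w T i₀).card = β i₀ + 1 ∧
          ∀ j ∈ range (w + 1), j ≠ i₀ → (Qi w T j).card ≤ β j) then
          (-1 : ℝ) ^ T.card * ∏ p ∈ T, g p else 0 := by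
      intro i₀ hi₀
      simp only [hF]
      rw [Finset.prod_ite_zero, fs_val]
      congr 1
      apply propext
      constructor
      · intro h
        refine ⟨by simpa using h i₀ hi₀, fun j hj hne => by simpa [hne] using h j hj⟩
      · rintro ⟨h3, h4⟩ i hi
        by_cases hii : i = i₀
        · subst hii; simpa using h3
        · simpa [hii] using h4 i hi hii
    rw [Finset.sum_congr rfl h2]
    by_cases hex : ∃ i ∈ range (w + 1), (Qi w T i).card = β i + 1 ∧
        ∀ j ∈ range (w + 1), j ≠ i → (Qi w T j).card ≤ β j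
    · rw [if_pos hex]
      obtain ⟨i, hi, h3, h4⟩ := hex
      rw [Finset.sum_eq_single i]
      · rw [if_pos ⟨h3, h4⟩]
      · intro j hj hne
        rw [if_neg]
        rintro ⟨h5, _⟩
        have := h4 j hj hne
        omega
      · intro h; exact absurd hi h
    · rw [if_neg hex]
      symm
      apply Finset.sum_eq_zero
      intro i hi
      rw [if_neg]
      intro h
      exact hex ⟨i, hi, h.1, h.2⟩
  refine (Finset.sum_congr rfl (fun T hT => by convert h1 T hT)).trans ?_
  rw [Finset.sum_comm]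
  rw [← Finset.sum_neg_distrib]
  apply Finset.sum_congr rfl
  intro i₀ hi₀
  rw [fs_gen w (w + 1) Q (fun p _ => fs_idx w p) (F i₀), ← Finset.mul_prod_erase _ _ hi₀]
  rw [← neg_mul]
  congr 1
  · simp only [hF, if_true]
    rw [← Finset.sum_filter]
    unfold ee
    rw [Finset.powersetCard_eq_filter, ← Finset.sum_neg_distrib]
    apply Finset.sum_congr rfl
    intro T hT
    rw [Finset.mem_filter] at hT
    rw [hT.2]
    have : (-1 : ℝ) ^ (β i₀ + 1) = -1 := by
      apply Odd.neg_one_pow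
      exact (hb i₀).add_one
    rw [this]
    ring
  · apply Finset.prod_congr rfl
    intro j hj
    have hne : j ≠ i₀ := Finset.ne_of_mem_erase hj
    simp only [hF, if_neg hne]
    unfold Yy
    rw [Finset.sum_filter]

theorem hFC : StFC := by
  intro w β Q g
  refine ⟨?_, fc_fact0 w β Q g, fc_fact1 w β Q g⟩
  rw [Finset.disjoint_left]
  intro T hT hT'
  unfold fb0 at hT
  unfold fb1 at hT'
  simp only [Finset.mem_filter] at hT hT'
  have h0 := hT.2
  obtain ⟨i, hi, h1, -⟩ := hT'.2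
  have := h0 i hi
  omega

end Pool.Agent.Helper78.UP
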